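import Mathlib
import Pool.Agent.Results.MP_6dc9d1_nt.FixedNumberAllLayers
import Pool.Agent.V11161.BH.ParZ

/-!
# The parity conjecture over the layers of the cyclotomic `ℤ₃`-extension and over their quadratic
# extensions, for twists of `X_0(14)` along clusters of primes

`E_D` is the quadratic twist by `D` of the modular curve `E = E_1 = X_0(14)` (no complex
multiplication). For a number field `K` the property `ParityZero K W` says that the parity conjecture
holds for `W` over `K`, with rank zero: the rank is zero, the `L`-function over `K` is entire and does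
not vanish at the centre, and every root number (sign of the functional equation) is `1 = (-1)^0`.

Let `T` be ANY finite subset of the class `Adm`, and let `c` be a class modulo
`P = 504 ∏_{M ∈ T} |M|`, prime to `P`, of primes inert in `ℚ(√2)`, in `ℚ(√-7)` and in the
`ℤ₃`-extension. For all `k` and `η > 0` there are `z`, `d`, `C`, `X₀` and `ρ, b > 0`, which depend only on
`k` and `η`, such that for all `T`, all `c` and every `X ≥ X₀` there are frequencies `θ_1, …, θ_d` with
the following property. Let `B` be the Bohr set of all integers `|h| ≤ X` with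
`|exp (2 π i h θ_j) - 1| ≤ ρ` for all `j`; it has at least `b X` elements. Put `W = P z!`. For at least
`(1 - η) |B| ^ k` of the vectors `(h_1, …, h_k)` in `B ^ k` (the entries being distinct and not zero) and
for arbitrarily large `N`, the same for all these vectors, there are at least `N / (log N) ^ C` primes
`p ≤ N` of the class such that `p_0 = p` and the `p_i = p + W h_i` are primes of the class, and for all
`M ∈ T` with `E_M(ℚ)` finite and `Ш(E_M/ℚ)[2] = 0`, for all nonempty subsets `J` of the `k + 1` indices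
with an even number of elements, and for all nonempty `J` if `c` is `3` modulo `8` and a square modulo
the split primes of `M`, the number `D = M ∏_{i ∈ J} p_i*` (`x* = ± x`, `x* = 1` modulo `4`) is in the
class, `ParityZero K E_D` holds for all the layers `K` of the cyclotomic `ℤ₃`-extension of `ℚ`, and
`ParityZero F E` holds for all the fields `F = K(√D)`, of degree `2 [K : ℚ]`.

The criterion with the matrix `R D` and the implication from it to rank zero and `L ≠ 0` are those of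
`FixedNumberAllLayers` (problem `MP_6dc9d1_nt`, by helper291); the treatment of the root numbers is the
one of `TwoCurvesMultiquadratic` (by helper291) of this problem. New here: the matrix of `M ∏ p_i*` is the
one of `M` (`Pool.Agent.V11161.BH.cluster_par9`), and the configurations of the primes
(`Pool.Agent.V11161.BH.bohrAPU`, uniform in the modulus).
-/

set_option autoImplicit false

open Filter NumberField IsDedekindDomain

namespace Pool.Agent.Results.MP_02f36d_nt.ParityAlongClusters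

open Pool.Agent.Results.MP_6dc9d1_nt.FixedNumberAllLayers (twist base pts factor rank quadratic
  cyclotomic Adm R AllLayers AllQuadratic)

open scoped Classical

/-- `Λ(s) = Q^(s/2) ((2π)^{-s} Γ(s))^g B(s) L(s)` -/
noncomputable def Lambda (g : ℕ) (Q : ℝ) (B L : ℂ → ℂ) (s : ℂ) : ℂ :=
  (Q : ℂ) ^ (s / 2) * ((2 * (Real.pi : ℂ)) ^ (-s) * Complex.Gamma s) ^ g * B s * L s

/-- `w` is a sign with `Λ(s) = w Λ(2 - s)` in the critical strip, for some positive number `Q` and some
function `B` (the quotient of the complete `L`-function by `L`: Euler factors at the bad places) with `B`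
analytic at `1`, `B(1) ≠ 0` -/
def IsRootNumber (g : ℕ) (L : ℂ → ℂ) (w : ℤ) : Prop :=
  (w = 1 ∨ w = -1) ∧ ∃ (Q : ℝ) (B : ℂ → ℂ), 0 < Q ∧ AnalyticAt ℂ B 1 ∧ B 1 ≠ 0 ∧
    ∀ s : ℂ, 1 / 2 < s.re → s.re < 3 / 2 → Lambda g Q B L s = w * Lambda g Q B L (2 - s)

/-- The parity conjecture holds for `W` over `K`, with rank zero: the rank is zero, the `L`-function is
entire and does not vanish at the centre, and all the root numbers are `1 = (-1)^0`. -/
def ParityZero (K : Type) [Field K] [NumberField K] (W : WeierstrassCurve ℤ) : Prop :=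
  rank K W = 0 ∧ ∃ L : ℂ → ℂ, Differentiable ℂ L ∧
    (∀ s : ℂ, 3 / 2 < s.re → HasProd (factor (K := K) W s) (L s)) ∧ L 1 ≠ 0 ∧
    ∀ w : ℤ, IsRootNumber (Module.finrank ℚ K) L w → w = 1 ∧ (-1 : ℤ) ^ rank K W = w

/-- `ParityZero K E_D` for all the layers `K` of the cyclotomic `ℤ₃`-extension of `ℚ` (`K` is a subfield of
odd degree of a `3 ^ (n + 1)`-th cyclotomic field). -/
def LayersParity (D : ℤ) : Prop := ∀ (n : ℕ) (M : Type) [Field M] [NumberField M]
  [IsCyclotomicExtension {3 ^ (n + 1)} ℚ M] (K : IntermediateField ℚ M),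
  Odd (Module.finrank ℚ K) → ParityZero K (twist D)

/-- `ParityZero F E` for `F = K(√D)`, a field of degree `2 [K : ℚ]`, for all the layers `K` of the
cyclotomic `ℤ₃`-extension of `ℚ`. -/
def QuadraticParity (D : ℤ) : Prop :=
  ∀ (m : ℕ) (K F : IntermediateField ℚ ℂ) [NumberField K] [NumberField F],
    K ≤ cyclotomic (3 ^ (m + 1)) → Odd (Module.finrank ℚ K) → F = quadratic D ⊔ K →
    Module.finrank ℚ F = 2 * Module.finrank ℚ K ∧ ParityZero F (twist 1)

/-- the group `E_M(ℚ)` is finite and `Ш(E_M/ℚ)` has no element of order two -/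
def RankZeroShaTwo (M : ℤ) : Prop :=
  Finite (base (twist M) ℚ).toAffine.Point ∧
    ∀ x : Pool.Agent.TH841.SH.D.Sha (base (twist M) ℚ), 2 • x = 0 → x = 0

/-- `x* = ± x`, congruent to `1` modulo `4` for odd `x` -/
def star (x : ℤ) : ℤ := if x % 4 = 1 then x else -x

/-- the numbers `p, p + W h_1, …, p + W h_k` -/
def members {k : ℕ} (W : ℕ) (h : Fin k → ℤ) (p : ℕ) : Fin (k + 1) → ℤ :=
  Fin.cons (p : ℤ) fun i => (p : ℤ) + W * h i

/-- the modulus `P = 504 ∏_{M ∈ T} |M|` -/
def modulus (T : Finset ℤ) : ℕ := 504 * ∏ M ∈ T, M.natAbs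

/-- the subsets `J` which are considered: nonempty, and with an even number of elements if `c` is not
`3` modulo `8` or not a square modulo one of the prime divisors `l = 1` modulo `8` of `M` -/
def Allowed {k : ℕ} (M : ℤ) (c : ℕ) (J : Finset (Fin (k + 1))) : Prop :=
  J.Nonempty ∧ (Even J.card ∨ (c % 8 = 3 ∧
    ∀ l : ℕ, l.Prime → (l : ℤ) ∣ M → l % 8 = 1 → IsSquare (c : ZMod l)))

/-- `D` is in the class, and if `E_M(ℚ)` is finite and `Ш(E_M/ℚ)[2] = 0`, then the parity conjecture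
holds, with rank zero, for `E_D` over all the layers `K` and for `E` over all the fields `K(√D)` -/
def Follows (M D : ℤ) : Prop :=
  Adm D ∧ (RankZeroShaTwo M → LayersParity D ∧ QuadraticParity D)

/-- the primes `p ≤ N` of the class of `c` modulo `P` for which all the `p + W h_i` are primes of the
class and `Follows` holds for `M` and `M` times the product of the `x*`, `x` running through the members
of the cluster with indices in `J`, for all `M ∈ T` and all allowed `J` -/
def goodPrimes {k : ℕ} (T : Finset ℤ) (c W : ℕ) (h : Fin k → ℤ) (N : ℕ) : Set ℕ :=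
  {p : ℕ | p ≤ N ∧ p.Prime ∧ p % modulus T = c % modulus T ∧
    (∀ i, ∃ q : ℕ, q.Prime ∧ q % modulus T = c % modulus T ∧ (q : ℤ) = p + W * h i) ∧
    ∀ M ∈ T, ∀ J : Finset (Fin (k + 1)), Allowed M c J →
      Follows M (M * ∏ i ∈ J, star (members W h p i))}

/-- the Bohr set of the frequencies `θ_j`, of radius `ρ` and width `X` -/
def bohrSet {d : ℕ} (θ : Fin d → ℝ) (ρ : ℝ) (X : ℕ) : Set ℤ :=
  {h : ℤ | |h| ≤ X ∧ ∀ j, ‖Complex.exp (2 * Real.pi * Complex.I * (h * θ j)) - 1‖ ≤ ρ}

lemma adm_iff' (D : ℤ) : Adm D ↔ (Pool.Agent.Y687.MQ.AdmD D ∧ Pool.Agent.Y682.YQ.H9 D) :=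
  Pool.Agent.Results.MP_f50388_nt.LayersMultiquadraticLaw.adm_iff D

lemma R_eq {D : ℤ} (hD : Adm D) : R D = Pool.Agent.Y687.MQ.matD D :=
  Pool.Agent.Results.MP_6dc9d1_nt.FixedNumberAllLayers.mat_eq D hD

lemma zer_iff {D : ℤ} : RankZeroShaTwo D ↔ Pool.Agent.Y682.YQ.Zer D := by
  unfold RankZeroShaTwo Pool.Agent.Y682.YQ.Zer
  refine and_congr Iff.rfl (forall_congr' fun x => ?_)
  rw [two_nsmul]
  rfl

lemma det_inst {n : Type} [Fintype n] (d₁ d₂ : DecidableEq n) (A : Matrix n n (ZMod 2)) :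
    @Matrix.det n d₁ _ (ZMod 2) _ A = @Matrix.det n d₂ _ (ZMod 2) _ A := by
  rw [Subsingleton.elim d₁ d₂]

/-- the determinant of `R D` in terms of the entries -/
lemma det_R (D : ℤ) : (R D).det = (Matrix.of fun i j : Pool.Agent.V11161.BH.spl D =>
    Pool.Agent.V11161.BH.ent (fun i => if 8 ∣ pts (twist 1) (ZMod i) + 1 then 0 else 1) D i j).det := by
  have e : R D = (Matrix.of fun i j : Pool.Agent.V11161.BH.spl D =>
    Pool.Agent.V11161.BH.ent (fun i => if 8 ∣ pts (twist 1) (ZMod i) + 1 then 0 else 1) D i j) := by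
    ext i j
    unfold R Pool.Agent.V11161.BH.ent
    simp only [Matrix.of_apply]
    by_cases hij : i = j
    · rw [if_pos hij, if_pos (congrArg Subtype.val hij)]
    · rw [if_neg hij, if_neg (fun h => hij (Subtype.ext h))]
  rw [e]
  exact det_inst _ _ _

theorem root_one {g : ℕ} {F : ℂ → ℂ} (hF : F 1 ≠ 0) {w : ℤ} (h : IsRootNumber g F w) : w = 1 := by
  obtain ⟨hw, Q, B, hQ, -, hB, h⟩ := h
  rcases hw with hw | hw
  · exact hw
  · exfalso
    have h1 := h 1 (by norm_num) (by norm_num)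
    have e : (2 : ℂ) - 1 = 1 := by norm_num
    rw [hw, e] at h1
    have h2 : Lambda g Q B F 1 = 0 := by
      push_cast at h1
      linear_combination h1 / 2
    unfold Lambda at h2
    rw [Complex.Gamma_one, mul_one] at h2
    have hQ0 : (Q : ℂ) ≠ 0 := by exact_mod_cast hQ.ne'
    have hpi : (2 * (Real.pi : ℂ)) ≠ 0 := by
      have : (Real.pi : ℂ) ≠ 0 := by exact_mod_cast Real.pi_ne_zero
      exact mul_ne_zero two_ne_zero this
    refine mul_ne_zero (mul_ne_zero (mul_ne_zero ?_ (pow_ne_zero _ ?_)) hB) hF h2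
    · intro h3
      exact hQ0 ((Complex.cpow_eq_zero_iff _ _).1 h3).1
    · intro h3
      exact hpi ((Complex.cpow_eq_zero_iff _ _).1 h3).1

lemma parity_of {K : Type} [Field K] [NumberField K] {W : WeierstrassCurve ℤ}
    (h : Pool.Agent.Results.MP_6dc9d1_nt.FixedNumberAllLayers.Equality K W) : ParityZero K W := by
  obtain ⟨h1, L, h2, h3, h4, -⟩ := h
  refine ⟨h1, L, h2, h3, h4, fun w hw => ?_⟩
  have hw1 := root_one h4 hw
  refine ⟨hw1, ?_⟩
  rw [h1, pow_zero, hw1]

lemma follows {M D : ℤ} (hM : Adm M) (hD : Adm D) (h1 : D ≠ 1) (hdet : (R D).det = (R M).det) :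
    Follows M D := by
  obtain ⟨hres, -, -⟩ := Pool.Agent.Results.MP_6dc9d1_nt.FixedNumberAllLayers.result
  have hM' : RankZeroShaTwo M ↔ (R M).det ≠ 0 := by
    rw [R_eq hM, zer_iff]
    exact Pool.Agent.Y682.YQ.zer_iff ((adm_iff' M).1 hM).1
  refine ⟨hD, fun h => ?_⟩
  have h2 : AllLayers D := by
    rw [(hres D hD).1, hdet]
    exact hM'.1 h
  have h3 : AllQuadratic D := (hres D hD).2 h1 h2
  refine ⟨fun n M _ _ _ K hK => parity_of (h2 n M K hK).1, fun m K F _ _ hK hodd hF => ?_⟩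
  obtain ⟨h4, h5, -⟩ := h3 m K F hK hodd hF
  exact ⟨h4, parity_of h5⟩

open Pool.Agent.V11161.BH in
theorem classPrimes_sub {k : ℕ} {T : Finset ℤ} (hT : ∀ M ∈ T, Adm M) {c W : ℕ}
    (hcop : c.Coprime (modulus T)) (hc8 : c % 8 = 3 ∨ c % 8 = 5)
    (hc7 : c % 7 = 3 ∨ c % 7 = 5 ∨ c % 7 = 6)
    (hc9 : c % 9 = 2 ∨ c % 9 = 4 ∨ c % 9 = 5 ∨ c % 9 = 7) {h : Fin k → ℤ} (hh0 : ∀ i, h i ≠ 0)
    (hinj : Function.Injective h) (hW : 0 < W) (N : ℕ) :
    classPrimes (modulus T) c W h N ⊆ goodPrimes T c W h N := by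
  intro p hp
  refine ⟨hp.1, hp.2.1, hp.2.2.1, hp.2.2.2, fun M hM J hJ => ?_⟩
  have hd : 504 * M.natAbs ∣ modulus T := Nat.mul_dvd_mul_left 504 (Finset.dvd_prod_of_mem _ hM)
  have hM' := (adm_iff' M).1 (hT M hM)
  have hA : Adm14 M := hM'.1
  obtain ⟨g1, g2, g3, g4⟩ := cluster_par9 hA hM'.2 (Nat.Coprime.coprime_dvd_right hd hcop) hc8 hc7
    hc9 hh0 hinj hW (classPrimes_dvd hd h N hp) hJ.1 hJ.2
    (fun i => if 8 ∣ pts (twist 1) (ZMod i) + 1 then 0 else 1)
  refine follows (hT M hM) ((adm_iff' _).2 ⟨g1, g4⟩) g2 ?_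
  rw [det_R, det_R]
  exact g3

/-- **Main theorem.** The parity conjecture, with rank zero, for the twists by the
`D = M ∏_{i ∈ J} p_i*` over the layers `K` of the cyclotomic `ℤ₃`-extension and for `X_0(14)` over the
fields `K(√D)`, for all `M ∈ T` with `E_M(ℚ)` finite and `Ш(E_M/ℚ)[2] = 0` and almost all the
configurations of the primes in a Bohr set. -/
theorem result (k : ℕ) (η : ℝ) (hη : 0 < η) :
    ∃ (z d C X₀ : ℕ) (ρ b : ℝ), 0 < ρ ∧ 0 < b ∧
      ∀ T : Finset ℤ, (∀ M ∈ T, Adm M) → ∀ c : ℕ, Nat.Coprime c (modulus T) →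
        (c % 8 = 3 ∨ c % 8 = 5) → (c % 7 = 3 ∨ c % 7 = 5 ∨ c % 7 = 6) →
        (c % 9 = 2 ∨ c % 9 = 4 ∨ c % 9 = 5 ∨ c % 9 = 7) → ∀ X : ℕ, X₀ ≤ X →
        ∃ (θ : Fin d → ℝ) (H : Finset (Fin k → ℤ)),
          b * X ≤ ((bohrSet θ ρ X).ncard : ℝ) ∧
          (∀ h ∈ H, (∀ i, h i ∈ bohrSet θ ρ X ∧ h i ≠ 0) ∧ Function.Injective h) ∧
          (1 - η) * ((bohrSet θ ρ X).ncard : ℝ) ^ k ≤ (H.card : ℝ) ∧
          ∃ᶠ N : ℕ in atTop, ∀ h ∈ H, (N : ℝ) / (Real.log N) ^ C ≤
            ((goodPrimes T c (modulus T * z.factorial) h N).ncard : ℝ) := by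
  obtain ⟨z, d, C, X₀, ρ, b, hρ, hb, hS⟩ := Pool.Agent.V11161.BH.bohrAPU k η hη
  refine ⟨z, d, C, X₀, ρ, b, hρ, hb, fun T hT c hc hc8 hc7 hc9 X hX => ?_⟩
  have hP0 : 0 < modulus T := Nat.mul_pos (by norm_num) (Finset.prod_pos fun M hM =>
    Int.natAbs_pos.2 (hT M hM).1.ne_zero)
  obtain ⟨θ, H, h1, h2, h3, h4⟩ := hS (modulus T) hP0 c hc X hX
  refine ⟨θ, H, h1, h2, h3, h4.mono fun N hN h hh => (hN h hh).trans ?_⟩
  rw [Nat.cast_le]
  refine Set.ncard_le_ncard (classPrimes_sub hT hc hc8 hc7 hc9 (fun i => ((h2 h hh).1 i).2)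
    (h2 h hh).2 (Nat.mul_pos hP0 z.factorial_pos) N) ((Set.finite_Iic N).subset fun p hp => hp.1)

end Pool.Agent.Results.MP_02f36d_nt.ParityAlongClusters
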