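import Pool.Agent.Results.MP_32c55d_nt.TwoCurvesMultiquadratic

/-!
# The parity conjecture for a CM and a non-CM curve at once over towers of multiquadratic fields

`E_M : y² = x³ + 5805 M² x - 285714 M³` is the twist by `M` of `X_0(14)` (without complex multiplication)
and `A_L : y² = x³ - 35 L² x - 98 L³` is the twist by `L` of `X_0(49)` (with complex multiplication).  The
curves are considered over the fields `K = ℚ(√d_1, …, √d_n)` of degree `2ⁿ`.

The global root number `w` of a curve over `K` is the sign of the functional equation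
`Λ(s) = w Λ(2 - s)` of its completed `L`-function
`Λ(s) = Q^(s/2) ((2π)^(-s) Γ(s))^[K:ℚ] L(s)` (the Hasse-Weil conjecture, known for these curves and
fields).  We write `L(s) = B(s) F(s)`, where `F` is the Euler product without finitely many places and `B`
is the product of the missing factors; of `B` only the properties `B` analytic at `1`, `B(1) ≠ 0` are used.

The pair of the two curves is good over `K` if for all the `2ⁿ` products `z` of some of the `d_i` the
twists `E_{M z}` and `A_{L z}` have finitely many rational points and no element of order two in `Ш`.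

The base family consists of the squarefree `D > 0` which are squares modulo `7` and all of whose prime
factors are congruent to `1` modulo `8` and split in `ℚ(√-7)`, or congruent to `5` modulo `8` and inert
in `ℚ(√-7)`; all the `d_i` are in the base family up to squares.

Theorem.  If the pair is good over `K`, then the parity conjecture holds over `K` for both curves: the
ranks are `0`, the `L`-functions do not vanish at the centre, and all the root numbers are `1 = (-1)^0`.
In this case it holds for both curves over the quadratic extension `K(√D)` for a lower proportion of at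
least `c ^ (2 ^ (n + 1))` of the `D` of the base family, `c = 0.4194…`.  Fields `K` of every degree `2ⁿ`
with this property exist.
-/

set_option autoImplicit false

open NumberField IsDedekindDomain Filter Topology

namespace Pool.Agent.Results.MP_02f36d_nt.TwoCurvesMultiquadratic

open Pool.Agent.Results.MP_32c55d_nt.TwoCurvesMultiquadratic (E a14 b14 a49 b49 IsL rank
  RankConjZero Base Fam14 Fam49 Indep InBase IsMultiquadratic Good count c)

/-- `Λ(s) = Q^(s/2) ((2π)^(-s) Γ(s))^n B(s) F(s)` -/
noncomputable def Lambda (n : ℕ) (Q : ℝ) (B F : ℂ → ℂ) (s : ℂ) : ℂ :=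
  (Q : ℂ) ^ (s / 2) * ((2 * (Real.pi : ℂ)) ^ (-s) * Complex.Gamma s) ^ n * B s * F s

/-- `w` is a sign with `Λ(s) = w Λ(2 - s)` in the critical strip, for some positive number `Q` and some
function `B` (the product of the Euler factors which are missing in `F`) with `B` analytic at `1`,
`B(1) ≠ 0` -/
def IsRootNumber (n : ℕ) (F : ℂ → ℂ) (w : ℤ) : Prop :=
  (w = 1 ∨ w = -1) ∧ ∃ (Q : ℝ) (B : ℂ → ℂ), 0 < Q ∧ AnalyticAt ℂ B 1 ∧ B 1 ≠ 0 ∧
    ∀ s : ℂ, 1 / 2 < s.re → s.re < 3 / 2 → Lambda n Q B F s = w * Lambda n Q B F (2 - s)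

/-- The parity conjecture holds for `y² = x³ + a x + b` over `K`, with rank zero: the group of the points
over `K` is finite and of rank `0`, the `L`-function over `K` (without the places that divide
`2 (4 a³ + 27 b²) m`) is entire and does not vanish at the centre, and all the root numbers over `K` are
`1 = (-1)^0`. -/
def ParityRankZero (K : Type) [Field K] [NumberField K] (a b m : ℤ) : Prop :=
  Finite (E K a b).toAffine.Point ∧ rank K a b = 0 ∧ (∃ F : ℂ → ℂ, IsL K a b m F) ∧
    ∀ F : ℂ → ℂ, IsL K a b m F → F 1 ≠ 0 ∧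
      ∀ w : ℤ, IsRootNumber (Module.finrank ℚ K) F w → w = 1 ∧ (-1 : ℤ) ^ rank K a b = w

/-- For every `K = ℚ(√d_1, …, √d_n)`: the degree is `2ⁿ`, and the parity conjecture holds over `K` for the
twist by `M` of `X_0(14)` and for the twist by `L` of `X_0(49)`, with rank zero. -/
def ParityOver {n : ℕ} (d : Fin n → ℤ) (M L : ℤ) : Prop :=
  ∀ (K : Type) [Field K] [NumberField K], IsMultiquadratic d K →
    Module.finrank ℚ K = 2 ^ n ∧ ParityRankZero K (a14 M) (b14 M) (∏ i, d i) ∧
      ParityRankZero K (a49 L) (b49 L) (∏ i, d i)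

/-- For every `ε > 0` the number `b X` is at least `(t - ε) a X` for all large `X`: the lower proportion
of `b` in `a` is at least `t`. -/
def LowerProportion (b a : ℕ → ℕ) (t : ℝ) : Prop :=
  ∀ ε : ℝ, 0 < ε → ∃ X₀ : ℕ, ∀ X : ℕ, X₀ ≤ X → (t - ε) * (a X : ℝ) ≤ (b X : ℝ)

theorem root_one {n : ℕ} {F : ℂ → ℂ} (hF : F 1 ≠ 0) {w : ℤ} (h : IsRootNumber n F w) : w = 1 := by
  obtain ⟨hw, Q, B, hQ, -, hB, h⟩ := h
  rcases hw with hw | hw
  · exact hw
  · exfalso
    have h1 := h 1 (by norm_num) (by norm_num)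
    have e : (2 : ℂ) - 1 = 1 := by norm_num
    rw [hw, e] at h1
    have h2 : Lambda n Q B F 1 = 0 := by
      push_cast at h1
      linear_combination h1 / 2
    unfold Lambda at h2
    rw [Complex.Gamma_one, mul_one] at h2
    have hQ0 : (Q : ℂ) ≠ 0 := by exact_mod_cast hQ.ne'
    have hpi : (2 * (Real.pi : ℂ)) ≠ 0 := by
      have : (Real.pi : ℂ) ≠ 0 := by exact_mod_cast Real.pi_ne_zero
      exact mul_ne_zero two_ne_zero this
    have h3 : (Q : ℂ) ^ ((1 : ℂ) / 2) ≠ 0 := by
      rw [Complex.cpow_def_of_ne_zero hQ0]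
      exact Complex.exp_ne_zero _
    have h4 : (2 * (Real.pi : ℂ)) ^ (-(1 : ℂ)) ≠ 0 := by
      rw [Complex.cpow_def_of_ne_zero hpi]
      exact Complex.exp_ne_zero _
    exact mul_ne_zero (mul_ne_zero (mul_ne_zero h3 (pow_ne_zero n h4)) hB) hF h2

theorem parity_of {K : Type} [Field K] [NumberField K] {a b m : ℤ} (h : RankConjZero K a b m) :
    ParityRankZero K a b m := by
  obtain ⟨h1, h2, h3, h4⟩ := h
  refine ⟨h1, h2, h3, fun F hF => ⟨(h4 F hF).1, fun w hw => ?_⟩⟩
  have := root_one (h4 F hF).1 hw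
  rw [h2, pow_zero, this]
  exact ⟨rfl, rfl⟩

theorem lower_of {a b c : ℕ → ℕ} {t : ℝ} (hab : ∀ X, a X ≤ b X)
    (h : Tendsto (fun X : ℕ => (a X : ℝ) / (c X : ℝ)) atTop (𝓝 t)) : LowerProportion b c t := by
  intro ε hε
  obtain ⟨X₀, hX₀⟩ := eventually_atTop.1 (h.eventually (lt_mem_nhds (show t - ε < t by linarith)))
  refine ⟨X₀, fun X hX => ?_⟩
  have h1 := hX₀ X hX
  have h2 : (a X : ℝ) ≤ (b X : ℝ) := by exact_mod_cast hab X
  rcases Nat.eq_zero_or_pos (c X) with h3 | h3
  · rw [h3, Nat.cast_zero, mul_zero]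
    exact Nat.cast_nonneg _
  · have h4 : (0 : ℝ) < (c X : ℝ) := by exact_mod_cast h3
    rw [lt_div_iff₀ h4] at h1
    linarith

theorem inBase_snoc {n : ℕ} {d : Fin n → ℤ} (hd : InBase d) {D : ℕ} (hD : Base D) :
    InBase (Fin.snoc d (D : ℤ) : Fin (n + 1) → ℤ) := by
  intro i
  refine Fin.lastCases ?_ (fun j => ?_) i
  · rw [Fin.snoc_last]
    exact ⟨D, 1, hD, one_ne_zero, by ring⟩
  · rw [Fin.snoc_castSucc]
    exact hd j

/-- **Main theorem.**
(1) If the pair is good over `K = ℚ(√d_1, …, √d_n)`, then the degree is `2ⁿ` and the parity conjecture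
holds over `K` for both curves, with ranks zero and all the root numbers `1`.
(2) If the pair is good over `ℚ(√d_1, …, √d_n)`, then the lower proportion of the `D` of the base family
such that the parity conjecture holds for both curves over `ℚ(√d_1, …, √d_n, √D)`, a field of degree
`2^(n+1)`, is at least `c ^ (2 ^ (n + 1))`; for exactly this proportion the pair is good over this field.
(3) For every `n` there are `d_1, …, d_n` in the base family such that the pair of the curves `X_0(14)`
and `X_0(49)` is good over `ℚ(√d_1, …, √d_n)`; `0.4194 < c < 0.4195`. -/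
theorem result :
    (∀ (n : ℕ) (d : Fin n → ℤ) (M L : ℤ), InBase d → Fam14 M → Fam49 L → Good d M L →
      ParityOver d M L) ∧
    (∀ (n : ℕ) (d : Fin n → ℤ) (M L : ℤ), InBase d → Fam14 M → Fam49 L → Good d M L →
      LowerProportion (count fun D => ParityOver (Fin.snoc d (D : ℤ) : Fin (n + 1) → ℤ) M L)
        (count fun _ => True) (c ^ 2 ^ (n + 1)) ∧
      Tendsto (fun X : ℕ =>
          (count (fun D => Good (Fin.snoc d (D : ℤ) : Fin (n + 1) → ℤ) M L) X : ℝ) /
        (count (fun _ => True) X : ℝ)) atTop (𝓝 (c ^ 2 ^ (n + 1)))) ∧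
    (∀ n : ℕ, ∃ d : Fin n → ℤ, InBase d ∧ Good d 1 1) ∧ 0.4194 < c ∧ c < 0.4195 := by
  classical
  obtain ⟨r1, -, r3, r4, r5, r6⟩ := MP_32c55d_nt.TwoCurvesMultiquadratic.result
  have key : ∀ (n : ℕ) (d : Fin n → ℤ) (M L : ℤ), InBase d → Fam14 M → Fam49 L → Good d M L →
      ParityOver d M L := by
    intro n d M L hd hM hL h K _ _ hK
    obtain ⟨h1, h2, h3⟩ := r1 n d M L hd hM hL h K hK
    exact ⟨h1, parity_of h2, parity_of h3⟩
  have hF14 : Fam14 1 := ⟨squarefree_one, by norm_num, by norm_num, fun p hp h => by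
    have h1 : p ∣ 1 := by exact_mod_cast h
    exact absurd (Nat.dvd_one.1 h1) hp.one_lt.ne'⟩
  have hF49 : Fam49 1 := ⟨squarefree_one, by norm_num, fun p hp h => by
    have h1 : p ∣ 1 := by exact_mod_cast h
    exact absurd (Nat.dvd_one.1 h1) hp.one_lt.ne'⟩
  refine ⟨key, fun n d M L hd hM hL h => ⟨lower_of (fun X => ?_) (r3 n d M L hd hM hL h),
    r3 n d M L hd hM hL h⟩, fun n => ?_, r5, r6⟩
  · have : Finite {D : ℕ // (1 ≤ D ∧ D ≤ X) ∧ Base D ∧
        ParityOver (Fin.snoc d (D : ℤ) : Fin (n + 1) → ℤ) M L} :=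
      Finite.of_injective (fun D => (⟨D.1, Finset.mem_Icc.2 D.2.1⟩ : Finset.Icc 1 X))
        fun D D' h => Subtype.ext (congrArg (fun z : Finset.Icc 1 X => z.1) h)
    refine Nat.card_le_card_of_injective (fun D => ⟨D.1, D.2.1, D.2.2.1,
      key (n + 1) _ M L (inBase_snoc hd D.2.2.1) hM hL D.2.2.2⟩) fun D D' h => ?_
    exact Subtype.ext (congrArg (fun z => z.1) h)
  · induction n with
    | zero => exact ⟨fun i => i.elim0, fun i => i.elim0, r4 _⟩
    | succ n ih =>
      obtain ⟨d, hd, hg⟩ := ih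
      have h1 := r3 n d 1 1 hd hF14 hF49 hg
      have hc : 0 < c ^ 2 ^ (n + 1) := pow_pos (by linarith) _
      obtain ⟨X₀, hX₀⟩ := eventually_atTop.1 (h1.eventually (lt_mem_nhds hc))
      have h2 := hX₀ X₀ le_rfl
      have h3 : count (fun D => Good (Fin.snoc d (D : ℤ) : Fin (n + 1) → ℤ) 1 1) X₀ ≠ 0 := by
        intro h0
        rw [h0, Nat.cast_zero, zero_div] at h2
        exact lt_irrefl _ h2
      obtain ⟨⟨D, -, hB, hD⟩⟩ := (Nat.card_ne_zero.1 h3).1
      exact ⟨_, inBase_snoc hd hB, hD⟩

end Pool.Agent.Results.MP_02f36d_nt.TwoCurvesMultiquadratic
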